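import Pool.Agent.KS6_77.Rectif.Main

set_option autoImplicit false

namespace Pool.Agent.Results.MP_7db8f6_gt.NowhereTychonoff

open Set Topology

/-- rectifiable spaces (`e` makes them nonempty) -/
def Rectifiable (X : Type) [TopologicalSpace X] : Prop :=
  ∃ (φ : (X × X) ≃ₜ (X × X)) (e : X), (∀ p : X × X, (φ p).1 = p.1) ∧ ∀ x : X, φ (x, x) = (x, e)

/-- complete regularity fails on every nonempty open subspace, and at every point `x` there is a
closed set `F`, not containing `x`, such that `f x ∈ f '' F` for every continuous map `f` into a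
Tychonoff space in which `f x` is a `G_δ` point (e.g. a metrizable space) -/
def NowhereCR (X : Type) [TopologicalSpace X] : Prop :=
  (∀ U : Set X, IsOpen U → U.Nonempty → ¬ CompletelyRegularSpace U) ∧
  ∀ x : X, ∃ F : Set X, IsClosed F ∧ x ∉ F ∧
    ∀ (Y : Type) [TopologicalSpace Y] [T35Space Y] (f : X → Y), Continuous f →
      IsGδ ({f x} : Set Y) → ∃ y ∈ F, f y = f x

/-- **Regular rectifiable spaces can be nowhere completely regular**, even with all points `G_δ`;
every regular rectifiable space is a closed subspace and a retract of such a space. -/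
theorem result :
    (∃ (G : Type) (_ : TopologicalSpace G), T3Space G ∧ Rectifiable G ∧ NowhereCR G ∧
      ∀ g : G, IsGδ ({g} : Set G)) ∧
    (∀ (H : Type) [TopologicalSpace H] [T3Space H], Rectifiable H →
      ∃ (R : Type) (_ : TopologicalSpace R), T3Space R ∧ Rectifiable R ∧ NowhereCR R ∧
        ∃ (i : H → R) (r : R → H), IsClosedEmbedding i ∧ Continuous r ∧ ∀ h, r (i h) = h) := by
  refine ⟨⟨Pool.Agent.H39.RC.G, inferInstance, inferInstance, Pool.Agent.H39.RC.rect,
    Pool.Agent.KS6_77.Rectif.bad_G, Pool.Agent.H39.RC.gdelta⟩, fun H _ _ hH => ?_⟩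
  refine ⟨H × Pool.Agent.H39.RC.G, inferInstance, inferInstance,
    Pool.Agent.KS6_77.Rectif.rect_prod hH Pool.Agent.H39.RC.rect,
    Pool.Agent.KS6_77.Rectif.bad_prod Pool.Agent.KS6_77.Rectif.bad_G,
    fun h => (h, Pool.Agent.H39.RC.e), Prod.fst, ?_, continuous_fst, fun _ => rfl⟩
  refine ⟨?_, ?_⟩
  · exact (isEmbedding_prodMkLeft _)
  · have : Set.range (fun h : H => (h, Pool.Agent.H39.RC.e)) =
        Prod.snd ⁻¹' {Pool.Agent.H39.RC.e} := by
      ext ⟨a, b⟩
      constructor
      · rintro ⟨h, hh⟩
        exact ((Prod.mk.inj hh).2).symm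
      · intro hb
        exact ⟨a, Prod.ext rfl (show b = Pool.Agent.H39.RC.e from hb).symm⟩
    rw [this]
    exact isClosed_singleton.preimage continuous_snd

end Pool.Agent.Results.MP_7db8f6_gt.NowhereTychonoff
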